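import Pool.Agent.W669.HD.Stm5

/-!
# PSD5: a kernel which is nonnegative on alternating functions gives a sum of weights
-/

set_option autoImplicit false

namespace Pool.Agent.W238.HD

open Finset Pool.Agent.W669.HD Pool.Agent.W666.GB

/-- four indices in `Fin 5` -/
abbrev J : Type := Fin 4 → Fin 5

/-- alternation -/
noncomputable def alt (x : J → ℝ) (F : J) : ℝ :=
  (1 / 24) * ∑ π : Equiv.Perm (Fin 4), sn π * x (F ∘ π)

/-- kernel of the alternation -/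
noncomputable def Pk (F' F : J) : ℝ :=
  (1 / 24) * ∑ π : Equiv.Perm (Fin 4), if F' ∘ π = F then sn π else 0

theorem sum_Pk (x : J → ℝ) (F' : J) : ∑ F, Pk F' F * x F = alt x F' := by
  unfold Pk alt
  have h1 : ∀ F, (1 / 24) * (∑ π : Equiv.Perm (Fin 4), if F' ∘ π = F then sn π else 0) * x F =
      ∑ π : Equiv.Perm (Fin 4), if F' ∘ π = F then (1 / 24) * (sn π * x F) else 0 := by
    intro F
    rw [mul_sum, sum_mul]
    refine sum_congr rfl fun π _ => ?_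
    split_ifs
    · ring
    · ring
  rw [sum_congr rfl fun F _ => h1 F, sum_comm, mul_sum]
  refine sum_congr rfl fun π _ => ?_
  rw [sum_ite_eq]
  simp

theorem alt_alt (x : J → ℝ) : AltF (alt x) := by
  intro F ρ
  unfold alt
  have h1 : ∑ π : Equiv.Perm (Fin 4), sn π * x ((F ∘ ρ) ∘ π) =
      ∑ π : Equiv.Perm (Fin 4), sn ρ * (sn π * x (F ∘ π)) := by
    rw [← Equiv.sum_comp (Equiv.mulLeft ρ) (fun π => sn ρ * (sn π * x (F ∘ π)))]
    refine sum_congr rfl fun π _ => ?_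
    rw [Equiv.coe_mulLeft, sn_mul, Equiv.Perm.coe_mul, ← mul_assoc, ← mul_assoc, sn_mul_self,
      one_mul, Function.comp_assoc]
  rw [h1, ← mul_sum]
  ring

theorem alt_of (x : J → ℝ) (hx : ∀ (F : J) (π : Equiv.Perm (Fin 4)), x (F ∘ π) = sn π * x F)
    (F : J) : alt x F = x F := by
  unfold alt
  have h1 : ∀ π : Equiv.Perm (Fin 4), sn π * x (F ∘ π) = x F := by
    intro π
    rw [hx, ← mul_assoc, sn_mul_self, one_mul]
  rw [sum_congr rfl fun π _ => h1 π, sum_const, card_univ, Fintype.card_perm, Fintype.card_fin]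
  simp [Nat.factorial]

/-- the alternated kernel -/
noncomputable def Ta (T : J → J → ℝ) (F G : J) : ℝ :=
  ∑ F', ∑ G', T F' G' * (Pk F' F * Pk G' G)

theorem Ta_symm (T : J → J → ℝ) (hs : ∀ F G, T F G = T G F) (F G : J) : Ta T F G = Ta T G F := by
  unfold Ta
  rw [sum_comm]
  refine sum_congr rfl fun F' _ => sum_congr rfl fun G' _ => ?_
  rw [hs]
  ring

/-- general double sum identity -/
theorem sum_Ta (T h : J → J → ℝ) :
    ∑ F, ∑ G, Ta T F G * h F G =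
      ∑ F', ∑ G', T F' G' * ∑ F, Pk F' F * ∑ G, Pk G' G * h F G := by
  have h1 : ∀ F G, Ta T F G * h F G =
      ∑ p : J × J, T p.1 p.2 * (Pk p.1 F * Pk p.2 G) * h F G := by
    intro F G
    unfold Ta
    rw [← Fintype.sum_prod_type' (f := fun F' G' => T F' G' * (Pk F' F * Pk G' G)), sum_mul]
  have h2 : ∑ F, ∑ G, Ta T F G * h F G =
      ∑ q : J × J, ∑ p : J × J, T p.1 p.2 * (Pk p.1 q.1 * Pk p.2 q.2) * h q.1 q.2 := by
    rw [Fintype.sum_prod_type]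
    exact sum_congr rfl fun F _ => sum_congr rfl fun G _ => h1 F G
  rw [h2, sum_comm, Fintype.sum_prod_type]
  refine sum_congr rfl fun F' _ => sum_congr rfl fun G' _ => ?_
  rw [Fintype.sum_prod_type, mul_sum]
  refine sum_congr rfl fun F _ => ?_
  rw [mul_sum, mul_sum]
  refine sum_congr rfl fun G _ => ?_
  simp only
  ring

theorem exists_B (T : J → J → ℝ) (hs : ∀ F G, T F G = T G F)
    (hp : ∀ Z : J → ℝ, AltF Z → 0 ≤ ∑ F, ∑ G, T F G * (Z F * Z G)) :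
    ∃ (n : ℕ) (B : Fin n → J → ℝ), ∀ h : J → J → ℝ,
      (∀ (F G : J) (π : Equiv.Perm (Fin 4)), h (F ∘ π) G = sn π * h F G) →
      (∀ (F G : J) (π : Equiv.Perm (Fin 4)), h F (G ∘ π) = sn π * h F G) →
      ∑ F, ∑ G, T F G * h F G = ∑ k, ∑ F, ∑ G, B k F * B k G * h F G := by
  classical
  obtain ⟨B, hB⟩ := sq_real (J := J) (fun F G => Ta T F G) (Ta_symm T hs) (by
    intro x
    have h1 := sum_Ta T (fun F G => x F * x G)
    have h2 : ∀ F' G', ∑ F, Pk F' F * ∑ G, Pk G' G * (x F * x G) = alt x F' * alt x G' := by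
      intro F' G'
      rw [← sum_Pk x F', ← sum_Pk x G', sum_mul]
      refine sum_congr rfl fun F _ => ?_
      rw [mul_sum, mul_sum]
      refine sum_congr rfl fun G _ => ?_
      ring
    rw [h1]
    refine (hp (alt x) (alt_alt x)).trans_eq ?_
    refine sum_congr rfl fun F' _ => sum_congr rfl fun G' _ => ?_
    rw [h2])
  have hB' : ∀ F G, Ta T F G = ∑ a, B a F * B a G := fun F G => hB F G
  have eqv := (Fintype.equivFin J).symm
  refine ⟨Fintype.card J, fun k F => B (eqv k) F, ?_⟩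
  intro h hh1 hh2
  have h3 : ∑ F, ∑ G, T F G * h F G = ∑ F, ∑ G, Ta T F G * h F G := by
    rw [sum_Ta]
    refine sum_congr rfl fun F' _ => sum_congr rfl fun G' _ => ?_
    congr 1
    have h4 : ∀ F, ∑ G, Pk G' G * h F G = h F G' := by
      intro F
      rw [sum_Pk (fun G => h F G) G']
      exact alt_of (fun G => h F G) (fun G π => hh2 F G π) G'
    rw [sum_congr rfl fun F _ => by rw [h4 F], sum_Pk (fun F => h F G') F']
    exact (alt_of (fun F => h F G') (fun F π => hh1 F G' π) F').symm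
  rw [h3, Equiv.sum_comp eqv (fun k => ∑ F, ∑ G, B k F * B k G * h F G)]
  have h5 : ∀ F, ∑ k, ∑ G, B k F * B k G * h F G = ∑ G, Ta T F G * h F G := by
    intro F
    rw [sum_comm]
    refine sum_congr rfl fun G _ => ?_
    rw [hB', sum_mul]
  refine (sum_congr rfl fun F _ => (h5 F).symm).trans ?_
  exact sum_comm

section weights

variable {m : ℕ}

/-- the slots as an embedding -/
def slotEmb (b₀ b₁ : Fin m) (hb : b₁ ≠ b₀) : Fin 4 ↪ Fin m × Bool :=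
  ⟨slot b₀ b₁, slot_inj hb⟩

/-- the permutation of the slots -/
def cp4 (b₀ b₁ : Fin m) (hb : b₁ ≠ b₀) (π : Equiv.Perm (Fin 4)) : Equiv.Perm (Fin m × Bool) :=
  π.viaFintypeEmbedding (slotEmb b₀ b₁ hb)

theorem cp4_slot (b₀ b₁ : Fin m) (hb : b₁ ≠ b₀) (π : Equiv.Perm (Fin 4)) (i : Fin 4) :
    cp4 b₀ b₁ hb π (slot b₀ b₁ i) = slot b₀ b₁ (π i) := by
  have := Equiv.Perm.viaFintypeEmbedding_apply_image π (slotEmb b₀ b₁ hb) i
  exact this

theorem cp4_off (b₀ b₁ : Fin m) (hb : b₁ ≠ b₀) (π : Equiv.Perm (Fin 4)) (x : Fin m × Bool)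
    (h0 : x.1 ≠ b₀) (h1 : x.1 ≠ b₁) : cp4 b₀ b₁ hb π x = x := by
  apply Equiv.Perm.viaFintypeEmbedding_apply_notMem_range
  rintro ⟨i, hi⟩
  have hi' : slot b₀ b₁ i = x := hi
  fin_cases i
  · exact h0 (by rw [← hi']; rfl)
  · exact h0 (by rw [← hi']; rfl)
  · exact h1 (by rw [← hi']; rfl)
  · exact h1 (by rw [← hi']; rfl)

theorem sn_cp4 (b₀ b₁ : Fin m) (hb : b₁ ≠ b₀) (π : Equiv.Perm (Fin 4)) :
    sn (cp4 b₀ b₁ hb π) = sn π := by
  unfold sn cp4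
  rw [Equiv.Perm.viaFintypeEmbedding_sign]

theorem awF_cp4 (a : Fin m × Bool → Fin 5 → ℝ) (b₀ b₁ : Fin m) (hb : b₁ ≠ b₀)
    (π : Equiv.Perm (Fin 4)) (F : J) (σ : Equiv.Perm (Fin m × Bool)) :
    awF a b₀ b₁ (F ∘ π) (σ * cp4 b₀ b₁ hb π) = awF a b₀ b₁ F σ := by
  unfold awF
  rw [← Equiv.prod_comp π (fun i => a (σ (slot b₀ b₁ i)) (F i))]
  refine prod_congr rfl fun i _ => ?_
  rw [Equiv.Perm.mul_apply, cp4_slot]
  rfl

/-- product of the other factors -/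
noncomputable def Kp (E : Finset (Fin m)) (C : Fin m → T4 m)
    (σ τ : Equiv.Perm (Fin m × Bool)) : ℝ :=
  ∏ b ∈ E, C b (σ (b, false)) (σ (b, true)) (τ (b, false)) (τ (b, true))

theorem Kp_left (b₀ b₁ : Fin m) (hb : b₁ ≠ b₀) (π : Equiv.Perm (Fin 4)) (S : Finset (Fin m))
    (C : Fin m → T4 m) (σ τ : Equiv.Perm (Fin m × Bool)) :
    Kp ((S.erase b₀).erase b₁) C (σ * cp4 b₀ b₁ hb π) τ = Kp ((S.erase b₀).erase b₁) C σ τ := by
  unfold Kp
  refine prod_congr rfl fun b hbE => ?_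
  have h1 : b ≠ b₁ := (mem_erase.1 hbE).1
  have h0 : b ≠ b₀ := (mem_erase.1 (mem_erase.1 hbE).2).1
  rw [Equiv.Perm.mul_apply, Equiv.Perm.mul_apply, cp4_off b₀ b₁ hb π (b, false) h0 h1,
    cp4_off b₀ b₁ hb π (b, true) h0 h1]

theorem Kp_right (b₀ b₁ : Fin m) (hb : b₁ ≠ b₀) (π : Equiv.Perm (Fin 4)) (S : Finset (Fin m))
    (C : Fin m → T4 m) (σ τ : Equiv.Perm (Fin m × Bool)) :
    Kp ((S.erase b₀).erase b₁) C σ (τ * cp4 b₀ b₁ hb π) = Kp ((S.erase b₀).erase b₁) C σ τ := by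
  unfold Kp
  refine prod_congr rfl fun b hbE => ?_
  have h1 : b ≠ b₁ := (mem_erase.1 hbE).1
  have h0 : b ≠ b₀ := (mem_erase.1 (mem_erase.1 hbE).2).1
  rw [Equiv.Perm.mul_apply, Equiv.Perm.mul_apply, cp4_off b₀ b₁ hb π (b, false) h0 h1,
    cp4_off b₀ b₁ hb π (b, true) h0 h1]

theorem gmw2_eq (w w' : Equiv.Perm (Fin m × Bool) → ℝ) (E : Finset (Fin m)) (C : Fin m → T4 m) :
    gmw2 w w' E C = ∑ σ : Equiv.Perm (Fin m × Bool), ∑ τ : Equiv.Perm (Fin m × Bool),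
      sn σ * sn τ * (w σ * w' τ * Kp E C σ τ) := rfl

theorem w_cp4 (b₀ b₁ : Fin m) (hb : b₁ ≠ b₀) (π : Equiv.Perm (Fin 4))
    (w : Equiv.Perm (Fin m × Bool) → ℝ)
    (hw : ∀ σ σ' : Equiv.Perm (Fin m × Bool),
      (∀ x : Fin m × Bool, x.1 ≠ b₀ → x.1 ≠ b₁ → σ x = σ' x) → w σ = w σ')
    (σ : Equiv.Perm (Fin m × Bool)) : w (σ * cp4 b₀ b₁ hb π) = w σ := by
  apply hw
  intro x h0 h1
  rw [Equiv.Perm.mul_apply, cp4_off b₀ b₁ hb π x h0 h1]

theorem gmw2_left (a : Fin m × Bool → Fin 5 → ℝ) (b₀ b₁ : Fin m) (hb : b₁ ≠ b₀)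
    (π : Equiv.Perm (Fin 4)) (F : J) (w w' : Equiv.Perm (Fin m × Bool) → ℝ)
    (hw : ∀ σ σ' : Equiv.Perm (Fin m × Bool),
      (∀ x : Fin m × Bool, x.1 ≠ b₀ → x.1 ≠ b₁ → σ x = σ' x) → w σ = w σ')
    (S : Finset (Fin m)) (C : Fin m → T4 m) :
    gmw2 (fun σ => w σ * awF a b₀ b₁ (F ∘ π) σ) w' ((S.erase b₀).erase b₁) C =
      sn π * gmw2 (fun σ => w σ * awF a b₀ b₁ F σ) w' ((S.erase b₀).erase b₁) C := by
  rw [gmw2_eq, gmw2_eq, ← Equiv.sum_comp (Equiv.mulRight (cp4 b₀ b₁ hb π)), mul_sum]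
  refine sum_congr rfl fun σ _ => ?_
  rw [mul_sum]
  refine sum_congr rfl fun τ _ => ?_
  rw [Equiv.coe_mulRight, sn_mul, sn_cp4, awF_cp4, w_cp4 b₀ b₁ hb π w hw, Kp_left]
  ring

theorem gmw2_right (a : Fin m × Bool → Fin 5 → ℝ) (b₀ b₁ : Fin m) (hb : b₁ ≠ b₀)
    (π : Equiv.Perm (Fin 4)) (F : J) (w w' : Equiv.Perm (Fin m × Bool) → ℝ)
    (hw : ∀ σ σ' : Equiv.Perm (Fin m × Bool),
      (∀ x : Fin m × Bool, x.1 ≠ b₀ → x.1 ≠ b₁ → σ x = σ' x) → w σ = w σ')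
    (S : Finset (Fin m)) (C : Fin m → T4 m) :
    gmw2 w' (fun σ => w σ * awF a b₀ b₁ (F ∘ π) σ) ((S.erase b₀).erase b₁) C =
      sn π * gmw2 w' (fun σ => w σ * awF a b₀ b₁ F σ) ((S.erase b₀).erase b₁) C := by
  rw [gmw2_eq, gmw2_eq, mul_sum]
  refine sum_congr rfl fun σ _ => ?_
  rw [← Equiv.sum_comp (Equiv.mulRight (cp4 b₀ b₁ hb π)), mul_sum]
  refine sum_congr rfl fun τ _ => ?_
  rw [Equiv.coe_mulRight, sn_mul, sn_cp4, awF_cp4, w_cp4 b₀ b₁ hb π w hw, Kp_right]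
  ring

theorem gmw_expand (a : Fin m × Bool → Fin 5 → ℝ) (b₀ b₁ : Fin m) (B : J → ℝ)
    (w : Equiv.Perm (Fin m × Bool) → ℝ) (E : Finset (Fin m)) (C : Fin m → T4 m) :
    gmw (fun σ => w σ * ∑ F, B F * awF a b₀ b₁ F σ) E C =
      ∑ F, ∑ G, B F * B G *
        gmw2 (fun σ => w σ * awF a b₀ b₁ F σ) (fun σ => w σ * awF a b₀ b₁ G σ) E C := by
  have h1 : gmw (fun σ => w σ * ∑ F, B F * awF a b₀ b₁ F σ) E C =
      ∑ p : Equiv.Perm (Fin m × Bool) × Equiv.Perm (Fin m × Bool), ∑ q : J × J,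
        sn p.1 * sn p.2 * (B q.1 * B q.2 * (w p.1 * awF a b₀ b₁ q.1 p.1 *
          (w p.2 * awF a b₀ b₁ q.2 p.2) * Kp E C p.1 p.2)) := by
    rw [Fintype.sum_prod_type]
    refine sum_congr rfl fun σ _ => sum_congr rfl fun τ _ => ?_
    rw [Fintype.sum_prod_type]
    show sn σ * sn τ * ((w σ * ∑ F, B F * awF a b₀ b₁ F σ) * (w τ * ∑ F, B F * awF a b₀ b₁ F τ) *
      Kp E C σ τ) = _
    rw [show sn σ * sn τ * ((w σ * ∑ F, B F * awF a b₀ b₁ F σ) *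
        (w τ * ∑ F, B F * awF a b₀ b₁ F τ) * Kp E C σ τ) =
        (∑ F, B F * awF a b₀ b₁ F σ) * (∑ F, B F * awF a b₀ b₁ F τ) *
          (sn σ * sn τ * w σ * w τ * Kp E C σ τ) by ring, sum_mul_sum, sum_mul]
    refine sum_congr rfl fun F _ => ?_
    rw [sum_mul]
    refine sum_congr rfl fun G _ => ?_
    simp only
    ring
  rw [h1, sum_comm, Fintype.sum_prod_type]
  refine sum_congr rfl fun F _ => sum_congr rfl fun G _ => ?_
  rw [Fintype.sum_prod_type, gmw2_eq, mul_sum]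
  refine sum_congr rfl fun σ _ => ?_
  rw [mul_sum]
  refine sum_congr rfl fun τ _ => ?_
  simp only
  ring

end weights

theorem psd5 : S_PSD5 := by
  intro m a b₀ b₁ T hb hs hp
  obtain ⟨n, B, hB⟩ := exists_B T hs hp
  refine ⟨n, fun k σ => ∑ F, B k F * awF a b₀ b₁ F σ, ?_, ?_⟩
  · intro k σ σ' h
    refine sum_congr rfl fun F _ => ?_
    congr 1
    unfold awF
    refine prod_congr rfl fun i _ => ?_
    rw [h i]
  · intro w S C hw
    rw [hB (fun F G => gmw2 (fun σ => w σ * awF a b₀ b₁ F σ) (fun σ => w σ * awF a b₀ b₁ G σ)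
      ((S.erase b₀).erase b₁) C)
      (fun F G π => gmw2_left a b₀ b₁ hb π F w _ hw S C)
      (fun F G π => gmw2_right a b₀ b₁ hb π G w _ hw S C)]
    refine sum_congr rfl fun k _ => ?_
    rw [gmw_expand]

end Pool.Agent.W238.HD
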